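import Pool.Agent.H553Z.Hier.Core

/-!
# The choice of the parameters
-/

namespace Pool.Agent.H553Z.Hier

open Pool.Agent.NPC

/-- Polynomial growth of degree `j`, on the arguments `m` with `q m ≤ m`. -/
def OP (q : ℕ → ℕ) (j : ℕ) (F : ℕ → ℕ) : Prop :=
  ∃ C : ℕ, ∀ m, 1 ≤ m → q m ≤ m → F m ≤ C * m ^ j

namespace OP

variable {q : ℕ → ℕ} {j j' : ℕ} {F G : ℕ → ℕ}

theorem const (c : ℕ) : OP q j (fun _ => c) :=
  ⟨c, fun _ hm _ => Nat.le_mul_of_pos_right _ (Nat.pow_pos hm)⟩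

theorem mono (h : OP q j F) (hj : j ≤ j') : OP q j' F := by
  obtain ⟨C, hC⟩ := h
  exact ⟨C, fun m hm hq => (hC m hm hq).trans
    (Nat.mul_le_mul_left _ (Nat.pow_le_pow_right hm hj))⟩

theorem id' (hj : 1 ≤ j) : OP q j (fun m => m) :=
  mono (j := 1) ⟨1, fun m _ _ => by simp⟩ hj

theorem qq (hj : 1 ≤ j) : OP q j (fun m => q m) :=
  mono (j := 1) ⟨1, fun m _ hq => by simpa using hq⟩ hj

theorem add (hF : OP q j F) (hG : OP q j G) : OP q j (fun m => F m + G m) := by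
  obtain ⟨C, hC⟩ := hF
  obtain ⟨C', hC'⟩ := hG
  refine ⟨C + C', fun m hm hq => ?_⟩
  have h1 := hC m hm hq
  have h2 := hC' m hm hq
  rw [add_mul]
  exact Nat.add_le_add h1 h2

theorem cmul (c : ℕ) (hF : OP q j F) : OP q j (fun m => c * F m) := by
  obtain ⟨C, hC⟩ := hF
  refine ⟨c * C, fun m hm hq => ?_⟩
  rw [mul_assoc]
  exact Nat.mul_le_mul_left _ (hC m hm hq)

theorem pow (hF : OP q j F) (e : ℕ) (h : j * e ≤ j') : OP q j' (fun m => F m ^ e) := by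
  obtain ⟨C, hC⟩ := hF
  refine mono (j := j * e) ⟨C ^ e, fun m hm hq => ?_⟩ h
  rw [pow_mul, ← mul_pow]
  exact Nat.pow_le_pow_left (hC m hm hq) _

theorem lt (hF : OP q j F) : ∃ m₁, ∀ m, m₁ ≤ m → q m ≤ m → F m < m ^ (j + 1) := by
  obtain ⟨C, hC⟩ := hF
  refine ⟨C + 1, fun m hm hq => (hC m (by omega) hq).trans_lt ?_⟩
  rw [pow_succ']
  exact Nat.mul_lt_mul_of_pos_right (by omega) (Nat.pow_pos (by omega))

end OP

namespace Data

variable {k l : ℕ} {q : ℕ → ℕ} {L : Set (List Bool)} (D : Data k l q L)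

theorem op_Y : OP q k D.Y := by
  unfold Y
  refine OP.cmul _ (OP.pow (j := 1) ?_ k (by omega))
  exact ((((((OP.id' le_rfl).cmul 2).add (OP.const 1)).add (OP.qq le_rfl)).cmul 2).add
    (OP.const 1)).add (OP.qq le_rfl) |>.add (OP.const 1)

theorem op_Wb : OP q (k * l) D.Wb := by
  unfold Wb
  exact (OP.cmul _ (D.op_Y.pow l le_rfl)).add (OP.const _)

theorem ok_of (hk : 1 ≤ k) (hl : 1 ≤ l) : ∃ m₁, ∀ m, m₁ ≤ m → q m ≤ m → ∀ t,
    m ^ (k * l * k + 1) ≤ t → D.Ok t m := by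
  have hkl : k ≤ k * l := Nat.le_mul_of_pos_right _ hl
  have hklk : k * l ≤ k * l * k := Nat.le_mul_of_pos_right _ hk
  have hr : OP q k (fun m => D.c * m ^ k + D.c) :=
    (OP.cmul _ ((OP.id' le_rfl).pow k (by omega))).add (OP.const _)
  have h1 : OP q (k * l * k) (fun m =>
      D.Cf * (2 * (2 * m + 1 + q m) + 1 + (D.c * m ^ k + D.c) + 1) ^ k) := by
    refine OP.cmul _ (OP.pow (j := k) ?_ k (Nat.mul_le_mul_right _ hkl))
    exact (((((((OP.id' hk).cmul 2).add (OP.const 1)).add (OP.qq hk)).cmul 2).add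
      (OP.const 1)).add hr).add (OP.const 1)
  have h2 : OP q (k * l * k) (fun m => D.CV * (2 * D.Y m + 1 + D.Wb m + 1) ^ k) := by
    refine OP.cmul _ (OP.pow (j := k * l) ?_ k le_rfl)
    exact ((((D.op_Y.mono hkl).cmul 2).add (OP.const 1)).add D.op_Wb).add (OP.const 1)
  obtain ⟨m₁, hm₁⟩ := h1.lt
  obtain ⟨m₂, hm₂⟩ := (hr.mono (hkl.trans hklk)).lt
  obtain ⟨m₃, hm₃⟩ := (D.op_Y.mono (hkl.trans hklk)).lt
  obtain ⟨m₄, hm₄⟩ := h2.lt
  obtain ⟨m₅, hm₅⟩ := (D.op_Wb.mono hklk).lt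
  refine ⟨m₁ + m₂ + m₃ + m₄ + m₅, fun m hm hq t ht => ⟨?_, ?_, ?_, ?_, ?_⟩⟩
  · exact ((hm₁ m (by omega) hq).trans_le ht).le
  · exact (hm₂ m (by omega) hq).trans_le ht
  · exact ((hm₃ m (by omega) hq).trans_le ht).le
  · exact ((hm₄ m (by omega) hq).trans_le ht).le
  · exact ((hm₅ m (by omega) hq).trans_le ht).le

end Data

theorem sq_le_two_pow' : ∀ b : ℕ, 4 ≤ b → b * b ≤ 2 ^ b := by
  intro b hb
  induction b, hb using Nat.le_induction with
  | base => norm_num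
  | succ b hb ih => rw [pow_succ]; nlinarith

theorem sum_half (X : ℕ) (u : ℕ → ℕ) (s : ℕ) (h : ∀ i < s, u i * 2 ^ i ≤ X) :
    ∑ i ∈ Finset.range s, u i ≤ 2 * X := by
  have h1 : ((∑ i ∈ Finset.range s, u i : ℕ) : ℝ) ≤ ∑ i ∈ Finset.range s, (X : ℝ) * (1 / 2) ^ i := by
    rw [Nat.cast_sum]
    refine Finset.sum_le_sum fun i hi => ?_
    have h2 : ((u i * 2 ^ i : ℕ) : ℝ) ≤ X := by exact_mod_cast h i (Finset.mem_range.1 hi)
    push_cast at h2
    rw [one_div, inv_pow, ← div_eq_mul_inv, le_div_iff₀ (by positivity)]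
    exact h2
  rw [← Finset.mul_sum] at h1
  have h3 := sum_geometric_two_le s
  have h4 : ((∑ i ∈ Finset.range s, u i : ℕ) : ℝ) ≤ ((2 * X : ℕ) : ℝ) := by
    push_cast
    push_cast at h1
    nlinarith [Nat.cast_nonneg (α := ℝ) X]
  exact_mod_cast h4

theorem sz_rel {q : ℕ → ℕ} {s : ℕ} {n : ℕ → ℕ} : ∀ {G : List (List Bool)}, Rel q s n G →
    sz G ≤ ∑ i ∈ Finset.range G.length, (4 * q (n (s - i)) + 2) + 1
  | [], _ => by simp
  | d :: G, h => by
    have ih := sz_rel h.2.2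
    have h1 := sz_listBool_le d
    have h2 := h.2.1
    rw [sz_list_cons, List.length_cons, Finset.sum_range_succ]
    omega

theorem sz_map_range {β : Type} [TEnc β] (F : ℕ → β) (u : ℕ → ℕ) (h : ∀ i, sz (F i) + 1 ≤ u i) :
    ∀ s, sz ((List.range s).map F) ≤ ∑ i ∈ Finset.range s, u i + 1
  | 0 => by simp
  | s + 1 => by
    have ih := sz_map_range F u h s
    have h1 := sz_append ((List.range s).map F) [F s]
    have h2 := h s
    rw [List.range_succ, List.map_append, List.map_singleton, Finset.sum_range_succ]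
    simp only [sz_list_cons, sz_list_nil] at h1
    omega

theorem Data.sz_hdr {k l r K : ℕ} {q : ℕ → ℕ} (D : Data k l q (diag l r K)) (s : ℕ) (n : ℕ → ℕ) :
    sz (D.hdr s n) ≤ sz D.ef + sz D.eg + sz D.eV + sz D.cV + sz (n 0) +
      ∑ i ∈ Finset.range (s + 1), (8 * q (n (s - i)) + 4) + 6 := by
  have h1 := sz_map_range (fun i => (D.a (n (s - i)), q (n (s - i))))
    (fun i => 8 * q (n (s - i)) + 4) (by
      intro i
      have h2 := sz_listBool_le (D.a (n (s - i)))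
      have h3 := D.ha (n (s - i))
      have h4 := sz_nat_le (q (n (s - i)))
      have h5 := Poly.size_le_self (q (n (s - i)))
      rw [sz_pair]
      omega) (s + 1)
  unfold Data.hdr
  simp only [sz_pair]
  omega

set_option maxHeartbeats 400000 in
theorem main_nat {k l κ r : ℕ} (hk : 1 ≤ k) (hl : 1 ≤ l) (hκd : κ = k * l) (hr : r = 2 ^ κ)
    {q : ℕ → ℕ} (hq : ∀ E : ℕ, ∃ e₀, ∀ e, e₀ ≤ e → E * q (2 ^ e) ^ κ ≤ e) :
    ¬ FewIndexed k l q (diag l r (r * (κ * k + 1))) := by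
  intro hF
  obtain ⟨D⟩ := hF.data hk
  obtain ⟨m₁, hm₁⟩ := D.ok_of hk hl
  obtain ⟨DW, hDW⟩ := D.op_Wb
  have hκ : 1 ≤ κ := by rw [hκd]; exact Nat.mul_pos hk hl
  rw [← hκd] at hm₁ hDW
  have hr2 : 2 ≤ r := by
    calc 2 = 2 ^ 1 := by norm_num
      _ ≤ 2 ^ κ := Nat.pow_le_pow_right (by norm_num) hκ
      _ = r := hr.symm
  obtain ⟨e₀, he₀⟩ := hq (r * (DW + 1) * 96 ^ κ)
  obtain ⟨E0, hE0⟩ : ∃ E0, E0 = sz D.ef + sz D.eg + sz D.eV + sz D.cV := ⟨_, rfl⟩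
  obtain ⟨b, hb⟩ : ∃ b, b = e₀ + m₁ + (4 * E0 + 24 * (DW + 1) + 78) + 41 := ⟨_, rfl⟩
  have hb1 : 1 ≤ b := by omega
  have hbig : 40 * b + (4 * E0 + 24 * (DW + 1) + 78) ≤ 2 ^ b := by
    refine le_trans ?_ (sq_le_two_pow' b (by omega))
    have h1 : (4 * E0 + 24 * (DW + 1) + 78) + 41 ≤ b := by omega
    have h2 := Nat.mul_le_mul_right b h1
    nlinarith
  have hblt : b < 2 ^ b := Nat.lt_two_pow_self
  have h2κ : 2 ^ b ≤ (2 ^ b) ^ κ := Nat.le_self_pow (by omega) _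
  have hex : (DW + 1) * (2 ^ b) ^ κ ≤ b * r ^ (b + (DW + 1)) := by
    have h1 : DW + 1 ≤ r ^ (DW + 1) :=
      (Nat.lt_two_pow_self).le.trans (Nat.pow_le_pow_left hr2 _)
    have h2 : (2 ^ b) ^ κ = r ^ b := by rw [hr, ← pow_mul, ← pow_mul, mul_comm]
    rw [h2, pow_add]
    calc (DW + 1) * r ^ b ≤ r ^ (DW + 1) * r ^ b := Nat.mul_le_mul_right _ h1
      _ = 1 * (r ^ b * r ^ (DW + 1)) := by ring
      _ ≤ _ := Nat.mul_le_mul_right _ hb1
  classical
  have hex' : ∃ s, (DW + 1) * (2 ^ b) ^ κ ≤ b * r ^ s := ⟨_, hex⟩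
  obtain ⟨s, hs⟩ : ∃ s, s = Nat.find hex' := ⟨_, rfl⟩
  have hs1 : (DW + 1) * (2 ^ b) ^ κ ≤ b * r ^ s := by rw [hs]; exact Nat.find_spec hex'
  have hs2 : s ≤ b + (DW + 1) := by rw [hs]; exact Nat.find_min' hex' hex
  have hs0 : s ≠ 0 := by
    intro h0
    rw [h0, pow_zero, mul_one] at hs1
    nlinarith
  have hs3 : b * r ^ s < r * (DW + 1) * (2 ^ b) ^ κ := by
    obtain ⟨s', hs'⟩ := Nat.exists_eq_succ_of_ne_zero hs0
    have h1 := Nat.find_min hex' (m := s') (by rw [← hs]; omega)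
    rw [hs', pow_succ]
    push Not at h1
    calc b * (r ^ s' * r) = r * (b * r ^ s') := by ring
      _ < r * ((DW + 1) * (2 ^ b) ^ κ) := Nat.mul_lt_mul_of_pos_left h1 (by omega)
      _ = _ := by ring
  obtain ⟨n, hn⟩ : ∃ n : ℕ → ℕ, ∀ j, n j = 2 ^ (b * r ^ j) := ⟨fun j => _, fun _ => rfl⟩
  have hbe : ∀ j, b ≤ b * r ^ j := fun j => Nat.le_mul_of_pos_right _ (Nat.pow_pos (by omega))
  have hn0 : n 0 = 2 ^ b := by simp [hn]
  have hmono : ∀ i j, i ≤ j → n i ≤ n j := fun i j hij => by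
    rw [hn, hn]
    exact Nat.pow_le_pow_right (by norm_num)
      (Nat.mul_le_mul_left _ (Nat.pow_le_pow_right (by omega) hij))
  have hsucc : ∀ j, n (j + 1) = n j ^ r := by
    intro j
    rw [hn, hn]
    rw [← pow_mul, pow_succ, mul_assoc]
  have hqj : ∀ j, r * (DW + 1) * 96 ^ κ * q (n j) ^ κ ≤ b * r ^ j := fun j => by
    rw [hn]
    exact he₀ _ (le_trans (by omega) (hbe j))
  have hqn : ∀ j, q (n j) ≤ n j := by
    intro j
    have h1 := hqj j
    have h2 : q (n j) ≤ q (n j) ^ κ := Nat.le_self_pow (by omega) _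
    have h3 : q (n j) ^ κ ≤ r * (DW + 1) * 96 ^ κ * q (n j) ^ κ :=
      Nat.le_mul_of_pos_left _ (by positivity)
    have h4 : b * r ^ j < n j := by rw [hn]; exact Nat.lt_two_pow_self
    omega
  have hm₁n : ∀ j, m₁ ≤ n j := fun j => by
    rw [hn]
    exact le_trans (by omega) ((hbe j).trans (Nat.lt_two_pow_self).le)
  have hn1 : ∀ j, 1 ≤ n j := fun j => by rw [hn]; exact Nat.pow_pos (by norm_num)
  have hu : ∀ i < s + 1, 96 * q (n (s - i)) * 2 ^ i ≤ 2 ^ b := by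
    intro i hi
    have h1 := Nat.mul_le_mul_right (r ^ i) (hqj (s - i))
    have h2 : b * r ^ (s - i) * r ^ i = b * r ^ s := by
      rw [mul_assoc, ← pow_add, Nat.sub_add_cancel (by omega)]
    have h3 : r * (DW + 1) * 96 ^ κ * q (n (s - i)) ^ κ * r ^ i =
        r * (DW + 1) * (96 * q (n (s - i)) * 2 ^ i) ^ κ := by
      have : r ^ i = (2 ^ i) ^ κ := by rw [hr, ← pow_mul, ← pow_mul, mul_comm]
      rw [this, mul_pow, mul_pow]
      ring
    rw [h2, h3] at h1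
    have h4 := lt_of_mul_lt_mul_left (h1.trans_lt hs3) (Nat.zero_le _)
    exact (lt_of_pow_lt_pow_left₀ κ (Nat.zero_le _) h4).le
  have hsum := sum_half (2 ^ b) (fun i => 96 * q (n (s - i))) (s + 1) hu
  rw [← Finset.mul_sum] at hsum
  refine Data.Num.false (D := D) (s := s) (M := b * r ^ s) (n := n)
    ⟨hsucc, hmono, hn s, ?_, ?_, ?_, ?_, ?_⟩
  · intro j hj
    refine hm₁ _ (hm₁n j) (hqn j) _ ?_
    calc n j ^ (κ * k + 1) ≤ n s ^ (κ * k + 1) := Nat.pow_le_pow_left (hmono j s hj) _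
      _ ≤ _ := Nat.pow_le_pow_right (hn1 s) (Nat.le_mul_of_pos_left _ (by omega))
  · intro j _
    refine hm₁ _ (hm₁n _) (hqn _) _ ?_
    rw [hsucc, ← pow_mul]
  · refine le_trans ((hDW _ (hn1 0) (hqn 0)).trans ?_) hs1
    rw [hn0]
    exact Nat.mul_le_mul_right _ (by omega)
  · refine le_trans ?_ hs1
    rw [hn0]
    nlinarith
  · intro G hG
    have h1 := sz_rel hG
    have h2 := D.sz_hdr s n
    have h3 : ∑ i ∈ Finset.range G.length, (4 * q (n (s - i)) + 2) ≤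
        ∑ i ∈ Finset.range (s + 1), (4 * q (n (s - i)) + 2) :=
      Finset.sum_le_sum_of_subset (Finset.range_mono (hG.length_le.trans (by omega)))
    rw [Finset.sum_add_distrib, ← Finset.mul_sum, Finset.sum_const, Finset.card_range,
      smul_eq_mul] at h2
    rw [Finset.sum_add_distrib (s := Finset.range (s + 1)), ← Finset.mul_sum, Finset.sum_const,
      Finset.card_range, smul_eq_mul] at h3
    have h4 : sz (n 0) ≤ 4 * (b + 1) + 1 := by
      have := sz_nat_le (n 0)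
      rw [hn0, Nat.size_pow] at this
      rw [hn0]
      exact this
    rw [sz_pair, hn0]
    omega

end Pool.Agent.H553Z.Hier
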