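import Pool.Agent.H553Z.Hier.Lang

/-!
# The diagonal argument, under numerical hypotheses
-/

namespace Pool.Agent.H553Z.Hier

open Pool.Agent.NPC Turing Pool.Agent.H660R2.NX

attribute [local irreducible] unpair

/-- A number in unary. -/
def un (m : ℕ) : List Unit := List.replicate m ()

@[simp] theorem length_un (m : ℕ) : (un m).length = m := List.length_replicate

/-- `e` is a code of `f` with running time `C * (n + 1) ^ k`. -/
def Cd (k : ℕ) (e : Code) (f : List Bool → List Bool) (C : ℕ) : Prop :=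
  ∀ x t, C * (x.length + 1) ^ k ≤ t → U e x t = some (f x)

theorem Cd.eq {k : ℕ} {e : Code} {f : List Bool → List Bool} {C : ℕ} (h : Cd k e f C)
    {x y : List Bool} {t : ℕ} (hy : U e x t = some y) : y = f x := by
  have h1 := U_mono (le_max_left t (C * (x.length + 1) ^ k)) hy
  have h2 := h x _ (le_max_right t (C * (x.length + 1) ^ k))
  rw [h1] at h2
  exact Option.some.inj h2

theorem Cd.simu {k : ℕ} {e : Code} {f : List Bool → List Bool} {C : ℕ} (h : Cd k e f C)
    {x : List Bool} {t m : ℕ} (hx : x.length ≤ m) (ht : C * (m + 1) ^ k ≤ t) :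
    simu e (un t) x = f x := by
  unfold Hier.simu
  rw [length_un, h x t (le_trans (Nat.mul_le_mul_left _ (Nat.pow_le_pow_left (by omega) _)) ht)]
  rfl

/-- All the data of an algorithm. -/
structure Data (k l : ℕ) (q : ℕ → ℕ) (L : Set (List Bool)) where
  f : List Bool → List Bool
  g : List Bool → List Bool
  V : List Bool → List Bool
  A : Set (List Bool)
  a : ℕ → List Bool
  c : ℕ
  cV : ℕ
  ef : Code
  eg : Code
  eV : Code
  Cf : ℕ
  Cg : ℕ
  CV : ℕ
  hf : Cd k ef f Cf
  hg : Cd k eg g Cg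
  hV : Cd k eV V CV
  hgl : ∀ x, (g x).length ≤ Cg * (x.length + 1) ^ k
  hA : ∀ y, y ∈ A ↔ ∃ w : List Bool, w.length ≤ cV * y.length ^ l + cV ∧ V (pairBits y w) = [true]
  ha : ∀ n, (a n).length ≤ q n
  hd : ∀ x : List Bool, Decides (alg f x (a x.length)) A (c * x.length ^ k + c) (x ∈ L)
  hi : ∀ x h y : List Bool, Correct (alg f x (a x.length)) A h →
    alg f x (a x.length) h = false :: y →
      ∃ d : List Bool, d.length ≤ q x.length ∧ alg g x (a x.length) d = false :: y

theorem FewIndexed.data {k l : ℕ} (hk : 1 ≤ k) {q : ℕ → ℕ} {L : Set (List Bool)}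
    (h : FewIndexed k l q L) : Nonempty (Data k l q L) := by
  obtain ⟨f, g, A, a, c, hf, hg, ⟨V, cV, hV, hA⟩, ha, hd⟩ := h
  obtain ⟨ef, Cf, hf1, -⟩ := hf.code hk
  obtain ⟨eg, Cg, hg1, hg2⟩ := hg.code hk
  obtain ⟨eV, CV, hV1, -⟩ := hV.code hk
  exact ⟨⟨f, g, V, A, a, c, cV, ef, eg, eV, Cf, Cg, CV, hf1, hg1, hV1, hg2, hA, ha,
    fun x => (hd x).1, fun x => (hd x).2⟩⟩

namespace Data

variable {k l : ℕ} {q : ℕ → ℕ} {L : Set (List Bool)} (D : Data k l q L)

/-- Bound on the length of the queries. -/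
def Y (m : ℕ) : ℕ := D.Cg * (2 * (2 * m + 1 + q m) + 1 + q m + 1) ^ k

/-- Bound on the length of the certificates. -/
def Wb (m : ℕ) : ℕ := D.cV * D.Y m ^ l + D.cV

/-- The time `t` is enough for the inputs of length `m`. -/
structure Ok (t m : ℕ) : Prop where
  tf : D.Cf * (2 * (2 * m + 1 + q m) + 1 + (D.c * m ^ k + D.c) + 1) ^ k ≤ t
  tr : D.c * m ^ k + D.c < t
  tg : D.Y m ≤ t
  tV : D.CV * (2 * D.Y m + 1 + D.Wb m + 1) ^ k ≤ t
  tw : D.Wb m ≤ t

theorem ver_sound {κ : Hdr} (h1 : κ.2.2.1 = D.eV) (h2 : κ.2.2.2.1 = D.cV) {t : List Unit}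
    {y w : List Bool} (h : ver l κ t y w = true) : y ∈ D.A := by
  unfold ver at h
  simp only [Bool.and_eq_true, decide_eq_true_eq, h1, h2] at h
  exact (D.hA y).2 ⟨w, h.1, (D.hV.eq h.2).symm⟩

theorem ver_complete {κ : Hdr} (h1 : κ.2.2.1 = D.eV) (h2 : κ.2.2.2.1 = D.cV) {t m : ℕ}
    (ht : D.Ok t m) {y : List Bool} (hy : y ∈ D.A) (hl : y.length ≤ D.Y m) :
    ∃ w : List Bool, w.length ≤ D.Wb m ∧ ver l κ (un t) y w = true := by
  obtain ⟨w, hw1, hw2⟩ := (D.hA y).1 hy
  have hw3 : w.length ≤ D.Wb m := by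
    refine hw1.trans ?_
    unfold Wb
    have := Nat.mul_le_mul_left D.cV (Nat.pow_le_pow_left hl l)
    omega
  refine ⟨w, hw3, ?_⟩
  unfold ver
  simp only [Bool.and_eq_true, decide_eq_true_eq, h1, h2, length_un]
  refine ⟨hw1, ?_⟩
  rw [← hw2]
  refine D.hV _ _ (le_trans ?_ ht.tV)
  rw [length_pairBits]
  exact Nat.mul_le_mul_left _ (Nat.pow_le_pow_left (by omega) _)

theorem simu_g {t : ℕ} {x d : List Bool} (ht : D.Ok t x.length) (hd : d.length ≤ q x.length) :
    simu D.eg (un t) (pairBits (pairBits x (D.a x.length)) d) = alg D.g x (D.a x.length) d := by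
  refine D.hg.simu (m := 2 * (2 * x.length + 1 + q x.length) + 1 + q x.length) ?_ ht.tg
  rw [length_pairBits, length_pairBits]
  have := D.ha x.length
  omega

theorem len_g {x d y : List Bool} (hd : d.length ≤ q x.length)
    (h : alg D.g x (D.a x.length) d = false :: y) : y.length ≤ D.Y x.length := by
  have h1 := D.hgl (pairBits (pairBits x (D.a x.length)) d)
  have h2 : D.g (pairBits (pairBits x (D.a x.length)) d) = false :: y := h
  rw [h2, length_pairBits, length_pairBits, List.length_cons] at h1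
  have h3 := D.ha x.length
  have h4 : D.Cg * (2 * (2 * x.length + 1 + (D.a x.length).length) + 1 + d.length + 1) ^ k ≤
      D.Y x.length := Nat.mul_le_mul_left _ (Nat.pow_le_pow_left (by omega) _)
  omega

theorem simu_f {t : ℕ} {x h : List Bool} (ht : D.Ok t x.length)
    (hh : h.length ≤ D.c * x.length ^ k + D.c) :
    simu D.ef (un t) (pairBits (pairBits x (D.a x.length)) h) = alg D.f x (D.a x.length) h := by
  refine D.hf.simu (m := 2 * (2 * x.length + 1 + q x.length) + 1 + (D.c * x.length ^ k + D.c))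
    ?_ ht.tf
  rw [length_pairBits, length_pairBits]
  have := D.ha x.length
  omega

theorem run_iff {t : ℕ} {x : List Bool} (ht : D.Ok t x.length) {O : List Bool → Bool}
    (hO : ∀ d y : List Bool, d.length ≤ q x.length → alg D.g x (D.a x.length) d = false :: y →
      (O y = true ↔ y ∈ D.A)) :
    run (simu D.ef (un t)) O (pairBits x (D.a x.length)) (un t).length = some true ↔ x ∈ L := by
  classical
  have hdec : DecidesF (simu D.ef (un t)) D.A (pairBits x (D.a x.length))
      (D.c * x.length ^ k + D.c) (x ∈ L) := by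
    obtain ⟨h, h1, h2, h3, h4⟩ := D.hd x
    refine ⟨h, h1, ?_, ?_, ?_⟩
    · intro i hi
      obtain ⟨y, hy1, hy2⟩ := h2 i hi
      refine ⟨y, ?_, hy2⟩
      rw [D.simu_f ht (by rw [List.length_take]; omega), hy1]
    · rw [D.simu_f ht h1]; exact h3
    · rw [D.simu_f ht h1]; exact h4
  have hrun := run_decides (O := O) hdec (by
    intro h y hl hc hy
    rw [D.simu_f ht hl.le] at hy
    have hc' : Correct (alg D.f x (D.a x.length)) D.A h := by
      intro i hi
      obtain ⟨y', hy1, hy2⟩ := hc i hi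
      refine ⟨y', ?_, hy2⟩
      rw [← D.simu_f ht (by rw [List.length_take]; omega), hy1]
    obtain ⟨d, hd1, hd2⟩ := D.hi x h y hc' hy
    exact hO d y hd1 hd2) (k := (un t).length) (by rw [length_un]; exact ht.tr)
  rw [hrun]
  simp

/-- The header for `s + 1` levels of lengths `n 0, ..., n s`. -/
def hdr (s : ℕ) (n : ℕ → ℕ) : Hdr :=
  (D.ef, D.eg, D.eV, D.cV, n 0, (List.range (s + 1)).map (fun i => (D.a (n (s - i)), q (n (s - i)))))

end Data

/-- The relevant lists of indices. -/
def Rel (q : ℕ → ℕ) (s : ℕ) (n : ℕ → ℕ) : List (List Bool) → Prop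
  | [] => True
  | d :: G => G.length < s ∧ d.length ≤ q (n (s - G.length)) ∧ Rel q s n G

theorem Rel.length_le {q : ℕ → ℕ} {s : ℕ} {n : ℕ → ℕ} :
    ∀ {G : List (List Bool)}, Rel q s n G → G.length ≤ s
  | [], _ => Nat.zero_le _
  | _ :: _, h => h.1

theorem length_mk {κ : Hdr} {G : List (List Bool)} {m : ℕ} (h : 2 * sz (κ, G) + 1 ≤ m) :
    (inst κ G (un m)).length = m := by
  unfold inst
  rw [length_pairBits, List.length_replicate, length_un, bits_length]
  omega

theorem parse_mk (κ : Hdr) (G : List (List Bool)) (n : List Unit) :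
    unbits (Hdr × List (List Bool)) (unpair (inst κ G n)).1 = some (κ, G) := by
  unfold inst
  rw [unpair_pairBits, unbits_bits]

theorem head?_tail' {l : List Bool} (h : l.head? = some false) : l = false :: l.tail := by
  cases l with
  | nil => simp at h
  | cons b l => simp only [List.head?_cons, Option.some.injEq] at h; subst h; rfl

theorem mem_shortW {N M : ℕ} (hM : N = 2 ^ M) {w : List Bool} :
    w ∈ shortW (un N) ↔ w.length ≤ M := by
  unfold shortW
  have h1 : (un N).length.bits.length - 1 = M := by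
    rw [length_un, Nat.size_eq_bits_len, hM, Nat.size_pow]
    omega
  rw [h1, allB_eq (by rw [length_un, hM]), mem_allStr]

theorem mem_shortG {N M : ℕ} (hM : N = 2 ^ M) {G : List (List Bool)} (h : sz G ≤ M) :
    G ∈ shortG (un N) := by
  unfold shortG
  rw [List.mem_flatMap]
  refine ⟨bits G, (mem_shortW hM).2 (by rw [bits_length]; exact h), ?_⟩
  rw [unbits_bits]
  simp

theorem mem_diag {l r K : ℕ} {x : List Bool} :
    x ∈ diag l r K ↔ ∃ w : List Bool, w.length ≤ x.length ^ K ∧ test l r K x w = true := Iff.rfl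

namespace Data

variable {k l r K : ℕ} {q : ℕ → ℕ} (D : Data k l q (diag l r K))

theorem lev_hdr {s : ℕ} {n : ℕ → ℕ} {G : List (List Bool)} (hG : G.length ≤ s) :
    lev (D.hdr s n) G = (D.a (n (s - G.length)), q (n (s - G.length))) := by
  unfold lev hdr
  simp only
  rw [List.getD_eq_getElem _ _ (by simp; omega)]
  simp

/-- The numerical hypotheses. -/
structure Num (s M : ℕ) (n : ℕ → ℕ) : Prop where
  succ : ∀ j, n (j + 1) = n j ^ r
  mono : ∀ i j, i ≤ j → n i ≤ n j
  topEq : n s = 2 ^ M
  okTop : ∀ j ≤ s, D.Ok (n s ^ K) (n j)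
  okLow : ∀ j < s, D.Ok (n j ^ K) (n (j + 1))
  wb : D.Wb (n 0) ≤ M
  n0 : n 0 ≤ M
  fit : ∀ G, Rel q s n G → 2 * sz (D.hdr s n, G) + 1 ≤ n 0

variable {D} {s M : ℕ} {n : ℕ → ℕ}

theorem Num.len (h : D.Num s M n) {G : List (List Bool)} (hG : Rel q s n G) (j : ℕ) :
    (inst (D.hdr s n) G (un (n j))).length = n j :=
  length_mk ((h.fit G hG).trans (h.mono 0 j (Nat.zero_le _)))

theorem Num.inz_eq (h : D.Num s M n) {G : List (List Bool)} (hG : Rel q s n G) {j : ℕ}
    (hj : G.length + j = s) :
    inz (D.hdr s n) G (un (n j)) = pairBits (inst (D.hdr s n) G (un (n j)))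
      (D.a (inst (D.hdr s n) G (un (n j))).length) := by
  unfold inz
  rw [D.lev_hdr hG.length_le, h.len hG, show s - G.length = j by omega]

theorem Num.low_iff (h : D.Num s M n) {d : List Bool} {G : List (List Bool)}
    (hG : Rel q s n (d :: G)) {j : ℕ} (hj : G.length + (j + 1) = s) :
    inst (D.hdr s n) (d :: G) (un (n j)) ∈ diag l r K ↔
      ∃ y, alg D.g (inst (D.hdr s n) G (un (n (j + 1))))
        (D.a (inst (D.hdr s n) G (un (n (j + 1)))).length) d = false :: y ∧ y ∈ D.A := by
  have hG' : Rel q s n G := hG.2.2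
  have hlen := h.len hG' (j + 1)
  have hd : d.length ≤ q (inst (D.hdr s n) G (un (n (j + 1)))).length := by
    rw [hlen, show j + 1 = s - G.length by omega]
    exact hG.2.1
  have hok : D.Ok (n j ^ K) (inst (D.hdr s n) G (un (n (j + 1)))).length := by
    rw [hlen]; exact h.okLow j (by omega)
  have htest : ∀ w, test l r K (inst (D.hdr s n) (d :: G) (un (n j))) w =
      low l (D.hdr s n) (un (n j ^ K)) (un (n (j + 1))) d G w := by
    intro w
    unfold test
    rw [parse_mk]
    simp only [Option.elim_some, reduceCtorEq, if_false, List.head?_cons, Option.getD_some,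
      List.tail_cons]
    unfold upow
    rw [h.len hG, h.succ]
    rfl
  have hsim : simu (D.hdr s n).2.1 (un (n j ^ K))
      (pairBits (inz (D.hdr s n) G (un (n (j + 1)))) d) =
      alg D.g (inst (D.hdr s n) G (un (n (j + 1))))
        (D.a (inst (D.hdr s n) G (un (n (j + 1)))).length) d := by
    rw [h.inz_eq hG' hj]
    exact D.simu_g hok hd
  rw [mem_diag]
  simp only [htest, low, hsim, Bool.and_eq_true, decide_eq_true_eq]
  constructor
  · rintro ⟨w, -, h1, h2⟩
    exact ⟨_, head?_tail' h1, D.ver_sound rfl rfl h2⟩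
  · rintro ⟨y, h1, h2⟩
    obtain ⟨w, hw1, hw2⟩ := D.ver_complete (κ := D.hdr s n) rfl rfl hok h2 (D.len_g hd h1)
    refine ⟨w, ?_, ?_, ?_⟩
    · rw [h.len hG]
      exact hw1.trans hok.tw
    · rw [h1]; rfl
    · rw [h1]; exact hw2

theorem Num.sz_le (h : D.Num s M n) {G : List (List Bool)} (hG : Rel q s n G) : sz G ≤ M := by
  have h1 := h.fit G hG
  have h2 := h.n0
  rw [sz_pair] at h1
  omega

theorem Num.tabs_spec (h : D.Num s M n) : ∀ j ≤ s,
    (tabs l r (D.hdr s n) (un (n s ^ K)) (un (n s)) (shortW (un (n s))) (shortG (un (n s))) j).1 =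
      un (n j) ∧
    ∀ G, Rel q s n G → G.length + j = s →
      (G ∈ (tabs l r (D.hdr s n) (un (n s ^ K)) (un (n s)) (shortW (un (n s)))
        (shortG (un (n s))) j).2 ↔ inst (D.hdr s n) G (un (n j)) ∈ diag l r K) := by
  intro j
  induction j with
  | zero =>
    intro _
    have h0 : ucap (D.hdr s n).2.2.2.2.1 (un (n s)) = un (n 0) := by
      unfold ucap
      rw [length_un]
      change List.replicate (min (n 0) (n s)) () = _
      rw [min_eq_left (h.mono 0 s (Nat.zero_le _))]
      rfl
    unfold tabs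
    simp only [Function.iterate_zero, id_eq, h0, true_and]
    intro G hG hj
    unfold tab0
    rw [List.mem_filter, decide_eq_true_eq, h.inz_eq hG hj]
    have hok : D.Ok (n s ^ K) (inst (D.hdr s n) G (un (n 0))).length := by
      rw [h.len hG]; exact h.okTop 0 (Nat.zero_le _)
    have h1 := D.run_iff hok (O := orc0 l (D.hdr s n) (un (n s ^ K)) (shortW (un (n s)))) (by
      intro d y hd hy
      unfold orc0
      rw [List.any_eq_true]
      constructor
      · rintro ⟨w, -, hw⟩
        exact D.ver_sound rfl rfl hw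
      · intro hyA
        obtain ⟨w, hw1, hw2⟩ := D.ver_complete (κ := D.hdr s n) rfl rfl hok hyA (D.len_g hd hy)
        rw [h.len hG] at hw1
        exact ⟨w, (mem_shortW h.topEq).2 (hw1.trans h.wb), hw2⟩)
    rw [← h1]
    exact ⟨fun h2 => h2.2, fun h2 => ⟨mem_shortG h.topEq (h.sz_le hG), h2⟩⟩
  | succ j ih =>
    intro hj
    obtain ⟨ih1, ih2⟩ := ih (by omega)
    unfold tabs at ih1 ih2 ⊢
    rw [Function.iterate_succ_apply']
    generalize (nxt r (D.hdr s n) (un (n s ^ K)) (un (n s)) (shortW (un (n s)))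
      (shortG (un (n s))))^[j] _ = st at ih1 ih2
    have h0 : ucap (st.1.length ^ r) (un (n s)) = un (n (j + 1)) := by
      unfold ucap
      rw [ih1, length_un, length_un, ← h.succ, min_eq_left (h.mono _ s hj)]
      rfl
    unfold nxt
    simp only [h0, true_and]
    intro G hG hGj
    unfold tabS
    rw [List.mem_filter, decide_eq_true_eq, h.inz_eq hG hGj]
    have hlen := h.len hG (j + 1)
    have hok : D.Ok (n s ^ K) (inst (D.hdr s n) G (un (n (j + 1)))).length := by
      rw [hlen]; exact h.okTop _ hj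
    have hlev : (lev (D.hdr s n) G).2 = q (inst (D.hdr s n) G (un (n (j + 1)))).length := by
      rw [D.lev_hdr hG.length_le, hlen, show s - G.length = j + 1 by omega]
    have hrel : ∀ d : List Bool, d.length ≤ q (inst (D.hdr s n) G (un (n (j + 1)))).length →
        Rel q s n (d :: G) := by
      intro d hd
      refine ⟨by omega, ?_, hG⟩
      rw [hlen] at hd
      rw [show s - G.length = j + 1 by omega]
      exact hd
    have h1 := D.run_iff hok (O := orcS (D.hdr s n) (un (n s ^ K)) (un (n (j + 1)))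
      (shortW (un (n s))) st.2 G) (by
      intro d y hd hy
      unfold orcS
      rw [List.any_eq_true]
      simp only [Bool.and_eq_true, decide_eq_true_eq, hlev, h.inz_eq hG hGj]
      constructor
      · rintro ⟨d', -, hd', h2, h3⟩
        have h4 := (ih2 _ (hrel d' hd') (by simp only [List.length_cons]; omega)).1 h3
        obtain ⟨y', h5, h6⟩ := (h.low_iff (hrel d' hd') hGj).1 h4
        have h7 := D.simu_g hok hd'
        have h8 : (D.hdr s n).2.1 = D.eg := rfl
        rw [h8, h7, h5] at h2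
        simp only [List.cons.injEq, true_and] at h2
        rw [← h2]
        exact h6
      · intro hyA
        refine ⟨d, (mem_shortW h.topEq).2 ?_, hd, ?_, ?_⟩
        · have h2 := h.sz_le (hrel d hd)
          have h3 := length_lt_sz d
          rw [sz_list_cons] at h2
          omega
        · have h8 : (D.hdr s n).2.1 = D.eg := rfl
          rw [h8, D.simu_g hok hd, hy]
        · exact (ih2 _ (hrel d hd) (by simp only [List.length_cons]; omega)).2
            ((h.low_iff (hrel d hd) hGj).2 ⟨y, hy, hyA⟩))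
    rw [← h1]
    exact ⟨fun h2 => h2.2, fun h2 => ⟨mem_shortG h.topEq (h.sz_le hG), h2⟩⟩

theorem Num.false (h : D.Num s M n) : False := by
  have hG : Rel q s n [] := trivial
  obtain ⟨-, h1⟩ := h.tabs_spec s le_rfl
  have h2 := h1 [] hG (by simp)
  have htest : ∀ w, test l r K (inst (D.hdr s n) [] (un (n s))) w =
      !(Hier.top l r (D.hdr s n) (un (n s ^ K)) (un (n s))) := by
    intro w
    unfold test
    rw [parse_mk]
    simp only [Option.elim_some, if_true]
    unfold upow
    rw [h.len hG, pow_one]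
    rfl
  have hs : (D.hdr s n).2.2.2.2.2.tail.length = s := by
    simp [hdr]
  have h3 : inst (D.hdr s n) [] (un (n s)) ∈ diag l r K ↔
      ¬ [] ∈ (tabs l r (D.hdr s n) (un (n s ^ K)) (un (n s)) (shortW (un (n s)))
        (shortG (un (n s))) s).2 := by
    rw [mem_diag]
    simp only [htest, Hier.top, hs, Bool.not_eq_true', decide_eq_false_iff_not]
    exact ⟨fun ⟨_, _, h4⟩ => h4, fun h4 => ⟨[], Nat.zero_le _, h4⟩⟩
  rw [h3] at h2
  exact iff_not_self h2

end Data

end Pool.Agent.H553Z.Hier
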