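import Pool.Agent.NPC.Defs

/-!
# Fixed polynomial time with few queries to a nondeterministic oracle of fixed polynomial time
-/

namespace Pool.Agent.H553Z.Hier

open Pool.Agent.NPC Turing

/-- The function `f` on bit strings is computed by a Turing machine (in the sense of Mathlib) in
time `O(n ^ k)`. -/
def InTime (k : ℕ) (f : List Bool → List Bool) : Prop :=
  ∃ (M : TM2ComputableInTime (id : List Bool → List Bool) (id : List Bool → List Bool) f) (c : ℕ),
    ∀ n, M.time n ≤ c * n ^ k + c

/-- The language `A` has certificates of length `O(n ^ l)` that are checked in time `O(m ^ k)`,
where `m` is the length of the pair formed by the input and the certificate. -/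
def InNTime (k l : ℕ) (A : Set (List Bool)) : Prop :=
  ∃ (V : List Bool → List Bool) (c : ℕ), InTime k V ∧
    ∀ y, y ∈ A ↔ ∃ w : List Bool, w.length ≤ c * y.length ^ l + c ∧ V (pairBits y w) = [true]

/-! The behaviour of an algorithm with an oracle, on a fixed input, is described by the function
`act` that maps the list `h` of the oracle answers received so far to the next action `act h`, a
bit string: if this string is `false :: y` then the next action is the query `y`; if it is `[true]`
then the algorithm halts and accepts; in all other cases it halts and rejects. -/

/-- `h` is the list of the correct answers of the oracle `A` to the first `h.length` queries. -/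
def Correct (act : List Bool → List Bool) (A : Set (List Bool)) (h : List Bool) : Prop :=
  ∀ (i : ℕ) (hi : i < h.length), ∃ y : List Bool, act (h.take i) = false :: y ∧
    (h[i] = true ↔ y ∈ A)

/-- With the oracle `A`, the algorithm halts after at most `r` queries, and it accepts if and only
if the statement `P` holds. -/
def Decides (act : List Bool → List Bool) (A : Set (List Bool)) (r : ℕ) (P : Prop) : Prop :=
  ∃ h : List Bool, h.length ≤ r ∧ Correct act A h ∧ (∀ y, act h ≠ false :: y) ∧
    (act h = [true] ↔ P)

/-- The value of `f` on the input `x`, the advice `a` and the string `h`. -/
def alg (f : List Bool → List Bool) (x a h : List Bool) : List Bool :=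
  f (pairBits (pairBits x a) h)

/-- `L` is decided by a deterministic algorithm with `q n` bits of advice and an oracle `A` in
`InNTime k l`: each action is computed in time `O(m ^ k)` by `f` from the input, the advice and the
answers received so far; there are `O(n ^ k)` adaptive queries; and every query asked is one of the
strings computed in time `O(m ^ k)` by `g` from the input, the advice and an index of at most `q n`
bits. -/
def FewIndexed (k l : ℕ) (q : ℕ → ℕ) (L : Set (List Bool)) : Prop :=
  ∃ (f g : List Bool → List Bool) (A : Set (List Bool)) (a : ℕ → List Bool) (c : ℕ),
    InTime k f ∧ InTime k g ∧ InNTime k l A ∧ (∀ n, (a n).length ≤ q n) ∧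
    ∀ x : List Bool, Decides (alg f x (a x.length)) A (c * x.length ^ k + c) (x ∈ L) ∧
      ∀ h y : List Bool, Correct (alg f x (a x.length)) A h →
        alg f x (a x.length) h = false :: y →
          ∃ d : List Bool, d.length ≤ q x.length ∧ alg g x (a x.length) d = false :: y

/-- `L` is decided by a deterministic algorithm with `q n` bits of advice that asks at most `q n`
adaptive queries to an oracle `A` in `InNTime k l`; each action is computed in time `O(m ^ k)` by
`f` from the input, the advice and the answers received so far. -/
def FewQueries (k l : ℕ) (q : ℕ → ℕ) (L : Set (List Bool)) : Prop :=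
  ∃ (f : List Bool → List Bool) (A : Set (List Bool)) (a : ℕ → List Bool),
    InTime k f ∧ InNTime k l A ∧ (∀ n, (a n).length ≤ q n) ∧
    ∀ x : List Bool, Decides (alg f x (a x.length)) A (q x.length) (x ∈ L)

end Pool.Agent.H553Z.Hier
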