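import Pool.Agent.H553Z.Hier.Arith

/-!
# The hierarchy theorem
-/

namespace Pool.Agent.H553Z.Hier

open Pool.Agent.NPC Filter Asymptotics

theorem hq_of_littleO {κ : ℕ} {q : ℕ → ℕ}
    (h : (fun n : ℕ => (q n : ℝ) ^ κ) =o[atTop] (fun n : ℕ => Real.log n)) (E : ℕ) :
    ∃ e₀, ∀ e, e₀ ≤ e → E * q (2 ^ e) ^ κ ≤ e := by
  have h1 := h.def (c := 1 / ((E : ℝ) + 1)) (by positivity)
  obtain ⟨n₀, hn₀⟩ := eventually_atTop.1 h1
  refine ⟨n₀, fun e he => ?_⟩
  have h2 := hn₀ (2 ^ e) (he.trans (Nat.lt_two_pow_self).le)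
  have h3 : Real.log ((2 ^ e : ℕ) : ℝ) = e * Real.log 2 := by
    push_cast
    rw [Real.log_pow]
  have h4 : Real.log 2 ≤ 1 := by
    have := Real.log_le_sub_one_of_pos (x := 2) (by norm_num)
    linarith
  have h5 : 0 ≤ Real.log 2 := Real.log_nonneg (by norm_num)
  rw [h3, Real.norm_of_nonneg (by positivity), Real.norm_of_nonneg (by positivity), one_div,
    ← div_eq_inv_mul, le_div_iff₀ (by positivity)] at h2
  have h6 : (e : ℝ) * Real.log 2 ≤ e := by
    have : (0 : ℝ) ≤ e := Nat.cast_nonneg _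
    nlinarith
  have h7 : (0 : ℝ) ≤ (q (2 ^ e) : ℝ) ^ κ := by positivity
  have h8 : ((E * q (2 ^ e) ^ κ : ℕ) : ℝ) ≤ e := by
    push_cast
    nlinarith
  exact_mod_cast h8

theorem main {k l : ℕ} (hk : 1 ≤ k) (hl : 1 ≤ l) :
    ∃ L : Set (List Bool), InNP L ∧ ∀ q : ℕ → ℕ,
      (fun n : ℕ => (q n : ℝ) ^ (k * l)) =o[atTop] (fun n : ℕ => Real.log n) →
        ¬ FewIndexed k l q L :=
  ⟨_, inNP_diag _ _ _, fun _ hq => main_nat hk hl rfl rfl (hq_of_littleO hq)⟩

/-- A correct list of answers that is followed by a query is shorter than the complete one. -/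
theorem Correct.length_lt {act : List Bool → List Bool} {A : Set (List Bool)} {h h' y : List Bool}
    (hc : Correct act A h) (hc' : Correct act A h') (hn : ∀ y, act h' ≠ false :: y)
    (hy : act h = false :: y) : h.length < h'.length := by
  have key : ∀ i, i ≤ h.length → i ≤ h'.length → h.take i = h'.take i := by
    intro i
    induction i with
    | zero => intro _ _; simp
    | succ i ih =>
      intro h1 h2
      have h3 := ih (by omega) (by omega)
      obtain ⟨y₁, hy₁, hb₁⟩ := hc i (by omega)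
      obtain ⟨y₂, hy₂, hb₂⟩ := hc' i (by omega)
      rw [h3, hy₂] at hy₁
      simp only [List.cons.injEq, true_and] at hy₁
      subst hy₁
      rw [List.take_succ_eq_append_getElem (by omega), List.take_succ_eq_append_getElem (by omega),
        h3]
      congr 2
      rw [Bool.eq_iff_iff, hb₁, hb₂]
  by_contra hlt
  have h1 := key h'.length (by omega) le_rfl
  rw [List.take_length] at h1
  rcases Nat.lt_or_ge h'.length h.length with h2 | h2
  · obtain ⟨y₁, hy₁, -⟩ := hc h'.length h2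
    rw [h1] at hy₁
    exact hn _ hy₁
  · rw [List.take_of_length_le h2] at h1
    rw [h1] at hy
    exact hn _ hy

/-- Algorithms asking at most `q n` queries are a special case. -/
theorem FewQueries.fewIndexed {k l : ℕ} {q : ℕ → ℕ} {L : Set (List Bool)} {c : ℕ}
    (hq : ∀ n, q n ≤ c * n ^ k + c) (h : FewQueries k l q L) : FewIndexed k l q L := by
  obtain ⟨f, A, a, hf, hA, ha, hd⟩ := h
  refine ⟨f, f, A, a, c, hf, hf, hA, ha, fun x => ?_⟩
  obtain ⟨h', h1, h2, h3, h4⟩ := hd x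
  refine ⟨⟨h', h1.trans (hq _), h2, h3, h4⟩, fun h y hc hy => ⟨h, ?_, hy⟩⟩
  have := hc.length_lt h2 h3 hy
  omega

theorem main_queries {k l : ℕ} (hk : 1 ≤ k) (hl : 1 ≤ l) :
    ∃ L : Set (List Bool), InNP L ∧ ∀ q : ℕ → ℕ,
      (fun n : ℕ => (q n : ℝ) ^ (k * l)) =o[atTop] (fun n : ℕ => Real.log n) →
        ¬ FewQueries k l q L := by
  obtain ⟨L, hL, h⟩ := main hk hl
  refine ⟨L, hL, fun q hq hF => h q hq ?_⟩
  obtain ⟨n₀, hn₀⟩ := eventually_atTop.1 (hq.def (c := 1) one_pos)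
  have h1 : ∀ n, n₀ + 1 ≤ n → q n ≤ n := by
    intro n hn
    have h2 := hn₀ n (by omega)
    have h3 : (0 : ℝ) < n := by exact_mod_cast (show 0 < n by omega)
    have h4 := Real.log_le_sub_one_of_pos h3
    have h5 : 0 ≤ Real.log n := Real.log_natCast_nonneg n
    rw [Real.norm_of_nonneg (by positivity), Real.norm_of_nonneg h5, one_mul] at h2
    have h6 : ((q n ^ (k * l) : ℕ) : ℝ) ≤ n := by push_cast; linarith
    have h7 : q n ^ (k * l) ≤ n := by exact_mod_cast h6
    exact (Nat.le_self_pow (Nat.mul_pos hk hl).ne' _).trans h7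
  refine hF.fewIndexed (c := ∑ i ∈ Finset.range (n₀ + 1), q i + 1) fun n => ?_
  rcases Nat.lt_or_ge n (n₀ + 1) with h2 | h2
  · have := Finset.single_le_sum (f := q) (fun i _ => Nat.zero_le _) (Finset.mem_range.2 h2)
    omega
  · have h3 := h1 n h2
    have h4 : n ≤ n ^ k := Nat.le_self_pow (by omega) _
    have h5 : n ^ k ≤ (∑ i ∈ Finset.range (n₀ + 1), q i + 1) * n ^ k :=
      Nat.le_mul_of_pos_left _ (by omega)
    omega

end Pool.Agent.H553Z.Hier
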