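import Pool.Agent.H553Z.Hier.Sim

/-!
# The diagonal language and its membership in `NP`
-/

namespace Pool.Agent.H553Z.Hier

open Pool.Agent.NPC Turing Pool.Agent.H660R2.NX

attribute [local irreducible] unpair

/-- Headers: three codes, a constant, the bottom length, advice and index bounds. -/
abbrev Hdr : Type := Code × Code × Code × ℕ × ℕ × List (List Bool × ℕ)

/-- Simulation with a time bound. -/
def simu (e : Code) (t : List Unit) (z : List Bool) : List Bool := (U e z t.length).getD []

/-- A padded instance. -/
def inst (κ : Hdr) (G : List (List Bool)) (n : List Unit) : List Bool :=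
  pairBits (bits (κ, G)) (List.replicate (n.length - (2 * (bits (κ, G)).length + 1)) false)

/-- Advice and index bound of a level. -/
def lev (κ : Hdr) (G : List (List Bool)) : List Bool × ℕ := κ.2.2.2.2.2.getD G.length ([], 0)

/-- Instance together with the advice. -/
def inz (κ : Hdr) (G : List (List Bool)) (n : List Unit) : List Bool :=
  pairBits (inst κ G n) (lev κ G).1

/-- The verifier of the oracle. -/
def ver (l : ℕ) (κ : Hdr) (t : List Unit) (y w : List Bool) : Bool :=
  decide (w.length ≤ κ.2.2.2.1 * y.length ^ l + κ.2.2.2.1) &&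
    decide (U κ.2.2.1 (pairBits y w) t.length = some [true])

/-- The test on the lower levels. -/
def low (l : ℕ) (κ : Hdr) (t n : List Unit) (d : List Bool) (G : List (List Bool))
    (w : List Bool) : Bool :=
  decide ((simu κ.2.1 t (pairBits (inz κ G n) d)).head? = some false) &&
    ver l κ t (simu κ.2.1 t (pairBits (inz κ G n) d)).tail w

/-- The oracle by exhaustive search. -/
def orc0 (l : ℕ) (κ : Hdr) (t : List Unit) (W : List (List Bool)) (y : List Bool) : Bool :=
  W.any (fun w => ver l κ t y w)

/-- The table of the bottom level. -/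
def tab0 (l : ℕ) (κ : Hdr) (t n : List Unit) (W : List (List Bool))
    (GG : List (List (List Bool))) : List (List (List Bool)) :=
  GG.filter (fun G => decide (run (simu κ.1 t) (orc0 l κ t W) (inz κ G n) t.length = some true))

/-- The oracle given by the table of the previous level. -/
def orcS (κ : Hdr) (t n : List Unit) (W : List (List Bool)) (Tb : List (List (List Bool)))
    (G : List (List Bool)) (y : List Bool) : Bool :=
  W.any (fun d => decide (d.length ≤ (lev κ G).2) &&
    (decide (simu κ.2.1 t (pairBits (inz κ G n) d) = false :: y) && decide (d :: G ∈ Tb)))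

/-- The table of the next level. -/
def tabS (κ : Hdr) (t n : List Unit) (W : List (List Bool)) (GG Tb : List (List (List Bool))) :
    List (List (List Bool)) :=
  GG.filter (fun G =>
    decide (run (simu κ.1 t) (orcS κ t n W Tb G) (inz κ G n) t.length = some true))

/-- A power, in unary. -/
def upow (r : ℕ) {β : Type} (n : List β) : List Unit := List.replicate (n.length ^ r) ()

/-- A minimum, in unary. -/
def ucap (m : ℕ) (N : List Unit) : List Unit := List.replicate (min m N.length) ()

/-- From one level to the next one. -/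
def nxt (r : ℕ) (κ : Hdr) (t N : List Unit) (W : List (List Bool)) (GG : List (List (List Bool)))
    (st : List Unit × List (List (List Bool))) : List Unit × List (List (List Bool)) :=
  (ucap (st.1.length ^ r) N, tabS κ t (ucap (st.1.length ^ r) N) W GG st.2)

/-- The tables of all levels. -/
def tabs (l r : ℕ) (κ : Hdr) (t N : List Unit) (W : List (List Bool))
    (GG : List (List (List Bool))) (j : ℕ) : List Unit × List (List (List Bool)) :=
  (nxt r κ t N W GG)^[j] (ucap κ.2.2.2.2.1 N, tab0 l κ t (ucap κ.2.2.2.2.1 N) W GG)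

/-- All strings of logarithmic length. -/
def shortW (N : List Unit) : List (List Bool) := allB (N.length.bits.length - 1) N

/-- All lists of strings with a code of logarithmic length. -/
def shortG (N : List Unit) : List (List (List Bool)) :=
  (shortW N).flatMap (fun w => (unbits (List (List Bool)) w).elim [] (fun G => [G]))

/-- The value computed on the top level. -/
def top (l r : ℕ) (κ : Hdr) (t N : List Unit) : Bool :=
  decide ([] ∈ (tabs l r κ t N (shortW N) (shortG N) κ.2.2.2.2.2.tail.length).2)

/-- The test defining the language. -/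
def test (l r K : ℕ) (x w : List Bool) : Bool :=
  (unbits (Hdr × List (List Bool)) (unpair x).1).elim false (fun c =>
    if c.2 = [] then !(top l r c.1 (upow K x) (upow 1 x))
    else low l c.1 (upow K x) (upow r x) (c.2.head?.getD []) c.2.tail w)

/-- The diagonal language. -/
def diag (l r K : ℕ) : Set (List Bool) :=
  {x | ∃ w : List Bool, w.length ≤ x.length ^ K ∧ test l r K x w = true}

/-! ### Polynomial time -/

section PolyTime

variable {α : Type} [TEnc α]

@[fun_prop]
theorem poly_bits' {β : Type} [TEnc β] {g : α → β} (hg : Poly g) :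
    Poly (fun a => bits (g a)) := by
  have h : PC (bits : α → List Bool) (fun x : List Bool => x) (fun a => bits (g a)) := hg
  exact PC.comp (g := fun x => x) (f := fun a => bits (g a)) PC.rawIn h

@[fun_prop]
theorem poly_Ul {e : α → Code} {t : α → List Unit} {z : α → List Bool} (he : Poly e)
    (ht : Poly t) (hz : Poly z) : Poly (fun a => U (e a) (z a) (t a).length) :=
  poly_U.comp (f := fun a => (e a, z a, t a)) (by fun_prop)

@[fun_prop]
theorem poly_simu {e : α → Code} {t : α → List Unit} {z : α → List Bool} (he : Poly e)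
    (ht : Poly t) (hz : Poly z) : Poly (fun a => simu (e a) (t a) (z a)) := by
  unfold simu
  exact Poly.optGetD (poly_Ul he ht hz) (by fun_prop)

@[fun_prop]
theorem poly_mk {κ : α → Hdr} {G : α → List (List Bool)} {n : α → List Unit} (hκ : Poly κ)
    (hG : Poly G) (hn : Poly n) : Poly (fun a => inst (κ a) (G a) (n a)) := by
  unfold inst
  have h1 : Poly (fun a => bits (κ a, G a)) := poly_bits' (by fun_prop)
  have h2 : UPoly (fun a => (n a).length - (2 * (bits (κ a, G a)).length + 1)) := by
    refine UPoly.of_le ?_ (UPoly.length hn) (fun a => Nat.sub_le _ _)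
    fun_prop
  have h3 : Poly (fun a => (List.replicate
      ((n a).length - (2 * (bits (κ a, G a)).length + 1)) ()).map (fun _ => false)) := by
    have h2' : Poly (fun a => List.replicate
      ((n a).length - (2 * (bits (κ a, G a)).length + 1)) ()) := h2
    exact NPC.Poly.map h2' (by fun_prop)
  have h4 : Poly (fun a => List.replicate
      ((n a).length - (2 * (bits (κ a, G a)).length + 1)) false) :=
    h3.congr fun a => by simp
  exact poly_pairBits h1 h4

@[fun_prop]
theorem poly_lev {κ : α → Hdr} {G : α → List (List Bool)} (hκ : Poly κ)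
    (hG : Poly G) : Poly (fun a => lev (κ a) (G a)) := by
  unfold lev
  fun_prop

@[fun_prop]
theorem poly_inz {κ : α → Hdr} {G : α → List (List Bool)} {n : α → List Unit} (hκ : Poly κ)
    (hG : Poly G) (hn : Poly n) : Poly (fun a => inz (κ a) (G a) (n a)) := by
  unfold inz
  exact poly_pairBits (poly_mk hκ hG hn) (Poly.fst (poly_lev hκ hG))

@[fun_prop]
theorem poly_pow {m : α → ℕ} (hm : Poly m) (l : ℕ) : Poly (fun a => m a ^ l) := by
  induction l with
  | zero => simpa using NPC.Poly.const (α := α) (1 : ℕ)
  | succ l ih => simpa only [pow_succ] using Poly.mul ih hm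

@[fun_prop]
theorem poly_ver (l : ℕ) {κ : α → Hdr} {t : α → List Unit} {y w : α → List Bool} (hκ : Poly κ)
    (ht : Poly t) (hy : Poly y) (hw : Poly w) :
    Poly (fun a => ver l (κ a) (t a) (y a) (w a)) := by
  unfold ver
  refine Poly.and (Poly.decide_le (by fun_prop) ?_) (Poly.dec_eq ?_ (by fun_prop))
  · have h1 : Poly (fun a => (y a).length ^ l) := poly_pow (by fun_prop) l
    have h2 : Poly (fun a => (κ a).2.2.2.1) := by fun_prop
    exact Poly.add (Poly.mul h2 h1) h2
  · exact poly_Ul (by fun_prop) ht (poly_pairBits hy hw)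

@[fun_prop]
theorem poly_low (l : ℕ) {κ : α → Hdr} {t n : α → List Unit} {d w : α → List Bool}
    {G : α → List (List Bool)} (hκ : Poly κ) (ht : Poly t) (hn : Poly n) (hd : Poly d)
    (hG : Poly G) (hw : Poly w) :
    Poly (fun a => low l (κ a) (t a) (n a) (d a) (G a) (w a)) := by
  unfold low
  have h1 : Poly (fun a => simu (κ a).2.1 (t a) (pairBits (inz (κ a) (G a) (n a)) (d a))) :=
    poly_simu (by fun_prop) ht (poly_pairBits (poly_inz hκ hG hn) hd)
  exact Poly.and (Poly.dec_eq (Poly.head? h1) (by fun_prop)) (poly_ver l hκ ht (Poly.tail h1) hw)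

theorem poly_orc0 (l : ℕ) {κ : α → Hdr} {t : α → List Unit} {W : α → List (List Bool)}
    {y : α → List Bool} (hκ : Poly κ) (ht : Poly t) (hW : Poly W) (hy : Poly y) :
    Poly (fun a => orc0 l (κ a) (t a) (W a) (y a)) := by
  unfold orc0
  refine Poly.any hW ?_
  exact poly_ver l (hκ.comp (by fun_prop)) (ht.comp (by fun_prop)) (hy.comp (by fun_prop))
    (by fun_prop)

theorem poly_orcS {κ : α → Hdr} {t n : α → List Unit} {W : α → List (List Bool)}
    {Tb : α → List (List (List Bool))} {G : α → List (List Bool)}
    {y : α → List Bool} (hκ : Poly κ) (ht : Poly t) (hn : Poly n) (hW : Poly W) (hTb : Poly Tb)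
    (hG : Poly G) (hy : Poly y) :
    Poly (fun a => orcS (κ a) (t a) (n a) (W a) (Tb a) (G a) (y a)) := by
  unfold orcS
  refine Poly.any hW ?_
  have hκ' : Poly (fun p : α × List Bool => κ p.1) := hκ.comp (by fun_prop)
  have ht' : Poly (fun p : α × List Bool => t p.1) := ht.comp (by fun_prop)
  have hn' : Poly (fun p : α × List Bool => n p.1) := hn.comp (by fun_prop)
  have hTb' : Poly (fun p : α × List Bool => Tb p.1) := hTb.comp (by fun_prop)
  have hG' : Poly (fun p : α × List Bool => G p.1) := hG.comp (by fun_prop)
  have hy' : Poly (fun p : α × List Bool => y p.1) := hy.comp (by fun_prop)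
  have hd : Poly (fun p : α × List Bool => p.2) := by fun_prop
  refine Poly.and (Poly.decide_le (Poly.length hd) (Poly.snd (poly_lev hκ' hG'))) (Poly.and ?_ ?_)
  · exact Poly.dec_eq (poly_simu (Poly.fst (Poly.snd hκ')) ht'
      (poly_pairBits (poly_inz hκ' hG' hn') hd)) (Poly.cons (NPC.Poly.const false) hy')
  · exact Poly.dec_mem (Poly.cons hd hG') hTb'

theorem poly_run' {f : α → List Bool → List Bool} {O : α → List Bool → Bool}
    {z : α → List Bool} {k : α → List Unit} (hf : Poly (fun p : α × List Bool => f p.1 p.2))
    (hO : Poly (fun p : α × List Bool => O p.1 p.2))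
    (hz : Poly z) (hk : Poly k) : Poly (fun a => run (f a) (O a) (z a) (k a).length) := by
  have hstep : Poly (fun p : α × List Bool × Option Bool => hst (f p.1) (O p.1) (z p.1) p.2) := by
    have h1 : Poly (fun p : α × List Bool × Option Bool => f p.1 (pairBits (z p.1) p.2.1)) :=
      hf.comp (f := fun p : α × List Bool × Option Bool => (p.1, pairBits (z p.1) p.2.1))
        (Poly.pair (by fun_prop) (poly_pairBits (hz.comp (by fun_prop)) (by fun_prop)))
    have h2 : Poly (fun p : α × List Bool × Option Bool =>
        O p.1 (f p.1 (pairBits (z p.1) p.2.1)).tail) :=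
      hO.comp (f := fun p : α × List Bool × Option Bool =>
        (p.1, (f p.1 (pairBits (z p.1) p.2.1)).tail)) (Poly.pair (by fun_prop) (Poly.tail h1))
    have h3 : Poly (fun p : α × List Bool × Option Bool => p.2.2.isSome) :=
      Poly.isSome (by fun_prop)
    unfold hst
    refine Poly.ite (Poly.decide_bool h3) (by fun_prop)
      (Poly.ite (Poly.dec_eq (Poly.head? h1) (by fun_prop)) ?_ ?_)
    · exact Poly.pair (Poly.append (by fun_prop) (Poly.cons h2 (NPC.Poly.const []))) (by fun_prop)
    · exact Poly.pair (by fun_prop) (Poly.some (Poly.dec_eq h1 (by fun_prop)))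
  obtain ⟨q, hq⟩ := Poly.sz_le hk
  have hmain : Poly (fun a => (hst (f a) (O a) (z a))^[(k a).length]
      (([], none) : List Bool × Option Bool)) := by
    refine Poly.iterLen (l := k) (s := fun _ => ([], none))
      (F := fun a => hst (f a) (O a) (z a)) hk (by fun_prop) hstep (4 * q + 20) ?_
    intro a j hj
    have h1 := length_hst_iterate (f a) (O a) (z a) j
    have h2 := hq a
    have h3 := length_lt_sz (k a)
    generalize (hst (f a) (O a) (z a))^[j] ([], none) = s at h1
    obtain ⟨h, v⟩ := s
    have h4 := sz_listBool_le h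
    have h5 : sz v ≤ 5 := by
      cases v with
      | none => simp
      | some b => cases b <;> simp
    simp only [sz_pair, Polynomial.eval_add, Polynomial.eval_mul, Polynomial.eval_ofNat]
    simp only at h1
    omega
  exact Poly.snd hmain

theorem poly_tab0 (l : ℕ) {κ : α → Hdr} {t n : α → List Unit} {W : α → List (List Bool)}
    {GG : α → List (List (List Bool))} (hκ : Poly κ) (ht : Poly t) (hn : Poly n) (hW : Poly W)
    (hGG : Poly GG) : Poly (fun a => tab0 l (κ a) (t a) (n a) (W a) (GG a)) := by
  unfold tab0
  refine Poly.filter hGG (Poly.dec_eq ?_ (by fun_prop))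
  have hκ' : Poly (fun p : α × List (List Bool) => κ p.1) := hκ.comp (by fun_prop)
  have ht' : Poly (fun p : α × List (List Bool) => t p.1) := ht.comp (by fun_prop)
  have hn' : Poly (fun p : α × List (List Bool) => n p.1) := hn.comp (by fun_prop)
  have hW' : Poly (fun p : α × List (List Bool) => W p.1) := hW.comp (by fun_prop)
  refine poly_run' (f := fun p : α × List (List Bool) => simu (κ p.1).1 (t p.1))
    (O := fun p : α × List (List Bool) => orc0 l (κ p.1) (t p.1) (W p.1))
    (z := fun p : α × List (List Bool) => inz (κ p.1) p.2 (n p.1))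
    (k := fun p : α × List (List Bool) => t p.1) ?_ ?_ (poly_inz hκ' (by fun_prop) hn') ht'
  · exact poly_simu (Poly.fst (hκ'.comp (by fun_prop))) (ht'.comp (by fun_prop)) (by fun_prop)
  · exact poly_orc0 l (hκ'.comp (by fun_prop)) (ht'.comp (by fun_prop)) (hW'.comp (by fun_prop))
      (by fun_prop)

theorem poly_tabS {κ : α → Hdr} {t n : α → List Unit} {W : α → List (List Bool)}
    {GG Tb : α → List (List (List Bool))} (hκ : Poly κ) (ht : Poly t) (hn : Poly n) (hW : Poly W)
    (hGG : Poly GG) (hTb : Poly Tb) :
    Poly (fun a => tabS (κ a) (t a) (n a) (W a) (GG a) (Tb a)) := by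
  unfold tabS
  refine Poly.filter hGG (Poly.dec_eq ?_ (by fun_prop))
  have hκ' : Poly (fun p : α × List (List Bool) => κ p.1) := hκ.comp (by fun_prop)
  have ht' : Poly (fun p : α × List (List Bool) => t p.1) := ht.comp (by fun_prop)
  have hn' : Poly (fun p : α × List (List Bool) => n p.1) := hn.comp (by fun_prop)
  have hW' : Poly (fun p : α × List (List Bool) => W p.1) := hW.comp (by fun_prop)
  have hTb' : Poly (fun p : α × List (List Bool) => Tb p.1) := hTb.comp (by fun_prop)
  refine poly_run' (f := fun p : α × List (List Bool) => simu (κ p.1).1 (t p.1))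
    (O := fun p : α × List (List Bool) => orcS (κ p.1) (t p.1) (n p.1) (W p.1) (Tb p.1) p.2)
    (z := fun p : α × List (List Bool) => inz (κ p.1) p.2 (n p.1))
    (k := fun p : α × List (List Bool) => t p.1) ?_ ?_ (poly_inz hκ' (by fun_prop) hn') ht'
  · exact poly_simu (Poly.fst (hκ'.comp (by fun_prop))) (ht'.comp (by fun_prop)) (by fun_prop)
  · exact poly_orcS (hκ'.comp (by fun_prop)) (ht'.comp (by fun_prop)) (hn'.comp (by fun_prop))
      (hW'.comp (by fun_prop)) (hTb'.comp (by fun_prop)) (by fun_prop) (by fun_prop)

theorem poly_upow (r : ℕ) {β : Type} [TEnc β] {n : α → List β} (hn : Poly n) :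
    Poly (fun a => upow r (n a)) := by
  have h := UPoly.eval (UPoly.length hn) (Polynomial.X ^ r)
  refine Poly.congr h fun a => ?_
  simp [upow]

theorem poly_ucap {m : α → ℕ} {N : α → List Unit} (hm : Poly m) (hN : Poly N) :
    Poly (fun a => ucap (m a) (N a)) := by
  have h : UPoly (fun a => min (m a) (N a).length) :=
    UPoly.of_le (Poly.min hm (Poly.length hN)) (UPoly.length hN) (fun a => min_le_right _ _)
  exact h

theorem sz_filter_le {β : Type} [TEnc β] (p : β → Bool) : ∀ l : List β, sz (l.filter p) ≤ sz l
  | [] => le_rfl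
  | b :: l => by
    have ih := sz_filter_le p l
    rw [List.filter_cons]
    split_ifs
    · simp only [sz_list_cons]; omega
    · simp only [sz_list_cons]; omega

theorem sz_units' (m : ℕ) : sz (List.replicate m ()) = 2 * m + 1 := by
  induction m with
  | zero => rfl
  | succ m ih => rw [List.replicate_succ, sz_list_cons, ih, sz_unit]; omega

theorem sz_ucap_le (m : ℕ) (N : List Unit) : sz (ucap m N) ≤ 2 * sz N := by
  unfold ucap
  rw [sz_units']
  have := length_lt_sz N
  have := min_le_right m N.length
  omega

theorem sz_tabs_le (l r : ℕ) (κ : Hdr) (t N : List Unit) (W : List (List Bool))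
    (GG : List (List (List Bool))) (j : ℕ) :
    sz (tabs l r κ t N W GG j) ≤ 2 * sz N + sz GG + 1 := by
  unfold tabs
  cases j with
  | zero =>
    simp only [Function.iterate_zero, id_eq, sz_pair]
    have h1 := sz_ucap_le κ.2.2.2.2.1 N
    have h2 : sz (tab0 l κ t (ucap κ.2.2.2.2.1 N) W GG) ≤ sz GG := sz_filter_le _ _
    omega
  | succ j =>
    rw [Function.iterate_succ_apply']
    generalize (nxt r κ t N W GG)^[j] _ = st
    unfold nxt
    simp only [sz_pair]
    have h1 := sz_ucap_le (st.1.length ^ r) N
    have h2 : sz (tabS κ t (ucap (st.1.length ^ r) N) W GG st.2) ≤ sz GG := sz_filter_le _ _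
    omega

theorem poly_tabs (l r : ℕ) {β : Type} [TEnc β] {κ : α → Hdr} {t N : α → List Unit}
    {W : α → List (List Bool)} {GG : α → List (List (List Bool))} {j : α → List β}
    (hκ : Poly κ) (ht : Poly t) (hN : Poly N) (hW : Poly W) (hGG : Poly GG) (hj : Poly j) :
    Poly (fun a => tabs l r (κ a) (t a) (N a) (W a) (GG a) (j a).length) := by
  obtain ⟨q₁, hq₁⟩ := Poly.sz_le hN
  obtain ⟨q₂, hq₂⟩ := Poly.sz_le hGG
  have h0 : Poly (fun a => ucap (κ a).2.2.2.2.1 (N a)) := poly_ucap (by fun_prop) hN
  refine Poly.iterLen (l := j)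
    (s := fun a => (ucap (κ a).2.2.2.2.1 (N a),
      tab0 l (κ a) (t a) (ucap (κ a).2.2.2.2.1 (N a)) (W a) (GG a)))
    (F := fun a => nxt r (κ a) (t a) (N a) (W a) (GG a)) hj
    (Poly.pair h0 (poly_tab0 l hκ ht h0 hW hGG)) ?_ (2 * q₁ + q₂ + 1) ?_
  · unfold nxt
    have h1 : Poly (fun p : α × List Unit × List (List (List Bool)) =>
        ucap (p.2.1.length ^ r) (N p.1)) :=
      poly_ucap (poly_pow (by fun_prop) r) (hN.comp (by fun_prop))
    exact Poly.pair h1 (poly_tabS (hκ.comp (by fun_prop)) (ht.comp (by fun_prop)) h1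
      (hW.comp (by fun_prop)) (hGG.comp (by fun_prop)) (by fun_prop))
  · intro a k _
    have h1 := sz_tabs_le l r (κ a) (t a) (N a) (W a) (GG a) k
    have h2 := hq₁ a
    have h3 := hq₂ a
    simp only [Polynomial.eval_add, Polynomial.eval_mul, Polynomial.eval_ofNat,
      Polynomial.eval_one]
    unfold tabs at h1
    omega

theorem poly_shortW {N : α → List Unit} (hN : Poly N) : Poly (fun a => shortW (N a)) := by
  unfold shortW
  refine poly_allB ?_ hN
  refine UPoly.of_le (Poly.sub (Poly.length (Poly.natBits (Poly.length hN))) (NPC.Poly.const 1))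
    (UPoly.length hN) (fun a => ?_)
  have h1 : (N a).length.bits.length = (N a).length.size := Nat.size_eq_bits_len _
  have h2 := Poly.size_le_self (N a).length
  omega

theorem poly_shortG {N : α → List Unit} (hN : Poly N) : Poly (fun a => shortG (N a)) := by
  unfold shortG
  refine Poly.flatMap (poly_shortW hN) ?_
  have h0 : Poly (unbits (List (List Bool))) := poly_unbits
  exact Poly.optElim (h0.comp (by fun_prop)) (by fun_prop) (by fun_prop)

theorem poly_top (l r : ℕ) {κ : α → Hdr} {t N : α → List Unit} (hκ : Poly κ) (ht : Poly t)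
    (hN : Poly N) : Poly (fun a => top l r (κ a) (t a) (N a)) := by
  unfold top
  exact Poly.dec_mem (by fun_prop) (Poly.snd (poly_tabs l r hκ ht hN (poly_shortW hN)
    (poly_shortG hN) (by fun_prop)))

theorem poly_test (l r K : ℕ) {x w : α → List Bool} (hx : Poly x) (hw : Poly w) :
    Poly (fun a => test l r K (x a) (w a)) := by
  unfold test
  have h0 : Poly (unbits (Hdr × List (List Bool))) := poly_unbits
  refine Poly.optElim (h0.comp (Poly.fst (poly_unpair_comp hx))) (by fun_prop) ?_
  have hx' : Poly (fun p : α × Hdr × List (List Bool) => x p.1) := hx.comp (by fun_prop)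
  have hw' : Poly (fun p : α × Hdr × List (List Bool) => w p.1) := hw.comp (by fun_prop)
  refine Poly.ite (Poly.dec_eq (by fun_prop) (by fun_prop)) (Poly.not ?_) ?_
  · exact poly_top l r (by fun_prop) (poly_upow K hx') (poly_upow 1 hx')
  · exact poly_low l (by fun_prop) (poly_upow K hx') (poly_upow r hx')
      (Poly.head?_getD (by fun_prop) []) (by fun_prop) hw'

end PolyTime

theorem inNP_diag (l r K : ℕ) : InNP (diag l r K) := by
  have h1 : Poly (fun v : List Bool => test l r K (unpair v).1 (unpair v).2) :=
    poly_test l r K (Poly.fst poly_unpair) (Poly.snd poly_unpair)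
  refine ⟨fun v => [test l r K (unpair v).1 (unpair v).2], Polynomial.X ^ K,
    polyTime_of_poly h1, fun x => ?_⟩
  simp only [diag, Set.mem_ofPred_eq, unpair_pairBits, Polynomial.eval_pow, Polynomial.eval_X,
    List.cons.injEq, and_true]

end Pool.Agent.H553Z.Hier
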