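import Pool.Agent.H553Z.Hier.Defs
import Pool.Agent.H660R2.NX.Run

/-!
# The universal simulation has a linear overhead in the number of steps
-/

namespace Pool.Agent.H553Z.Hier

open Pool.Agent.NPC Turing Pool.Agent.H642R2.TMSim
open Function (update)

theorem toRuns {f : List Bool → List Bool}
    (h : TM2ComputableInTime (id : List Bool → List Bool) (id : List Bool → List Bool) f) :
    ∃ (prog : Cmd ℕ) (C : ℕ), ∀ a : List Bool,
      Runs prog (inp a) (inp (f a)) (C * (h.time a.length + a.length + 1)) := by
  let tm := h.tm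
  haveI := tm.kFin
  haveI := tm.ΛFin
  haveI := tm.σFin
  haveI := tm.Γk₀Fin
  let A : Set (Σ k, tm.Γ k) := (⋃ l, pushes (tm.m l)) ∪ Set.range (fun a => ⟨tm.k₀, a⟩)
  have hA : A.Finite := by
    refine Set.Finite.union (Set.finite_iUnion fun l => pushes_finite _) ?_
    exact Set.finite_range _
  obtain ⟨b, hb, ⟨C⟩⟩ := exists_cod A hA
  obtain ⟨bs, hbs, ⟨D⟩⟩ := exists_cod (Set.univ : Set (tm.Λ × tm.σ)) Set.finite_univ
  obtain ⟨B, hB⟩ : ∃ B, ∀ l, cst b bs (tm.m l) ≤ B := by
    obtain ⟨B, hB⟩ := (Set.finite_range (fun l => cst b bs (tm.m l))).bddAbove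
    exact ⟨B, fun l => hB ⟨l, rfl⟩⟩
  have hm : ∀ l, pushes (tm.m l) ⊆ A := fun l x hx => Or.inl (Set.mem_iUnion.2 ⟨l, hx⟩)
  let prog : Cmd ℕ := Cmd.seq (mv 0 2) (Cmd.seq (inLoop A C tm.k₀ h.inputAlphabet.symm)
    (Cmd.seq (wr 1 (D.code (tm.main, tm.initialState))) (Cmd.seq (Cmd.loop 1 (body A C D tm.m))
      (Cmd.seq (outLoop A C tm.k₁ h.outputAlphabet) (mv 2 0)))))
  let c := 2 * bs + B + 1
  refine ⟨prog, (b + 8) + c + (4 * b + 20) * ((b + 1) + c + (b + bs + 10)) + (bs + 20),
    fun a => ?_⟩
  obtain ⟨⟨n, hn⟩, hn'⟩ := h.outputsFun a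
  have hn1 : (flip bind (TM2.step tm.m))^[n]
      (some (initList tm (List.map h.inputAlphabet.invFun a))) =
      some (haltList tm (List.map h.outputAlphabet.invFun (f a))) := hn
  rw [initList_stk, haltList_stk] at hn1
  have hgood : Good A (one tm.k₀ (List.map h.inputAlphabet.invFun a)) := by
    intro k x hx
    by_cases hk : k = tm.k₀
    · subst hk; exact Or.inr ⟨x, rfl⟩
    · rw [one, Function.update_of_ne hk] at hx; simp at hx
  obtain ⟨hg', hmain⟩ := main_runs A C D tm.m hb hbs hm B hB n _ _ _ hgood hn1
  have r1 : Runs (mv 0 2) (inp a) (update (R A C [] (one tm.k₀ [])) 2 a.reverse)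
      (4 * a.length + 1) := by
    refine mv_runs (by decide) a _ _ (by simp [inp]) ?_
    have : one (Γ := tm.Γ) tm.k₀ [] = fun _ => [] := Function.update_eq_self tm.k₀ _
    rw [this, R_empty]
    simp [inp]
  have r2 := inLoop_runs A C tm.k₀ h.inputAlphabet.symm a.reverse []
  rw [List.append_nil, List.map_reverse, List.reverse_reverse] at r2
  have r3 : Runs (wr 1 (D.code (tm.main, tm.initialState)))
      (R A C [] (one tm.k₀ (List.map h.inputAlphabet.symm a)))
      (R A C (D.code (tm.main, tm.initialState))
        (one tm.k₀ (List.map h.inputAlphabet.symm a))) (bs + 1) := by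
    refine (wr_runs _ _).conv rfl ?_ (by rw [D.len])
    rw [R_one, List.append_nil, R_update_one]
  have r5 := outLoop_runs A C hb tm.k₁ h.outputAlphabet
    (List.map h.outputAlphabet.invFun (f a)) [] (by
      intro x hx
      have := hg' tm.k₁ x
      rw [one, Function.update_self] at this
      exact this hx)
  have e5 : update (R A C [] (one tm.k₁ (List.map h.outputAlphabet.invFun (f a)))) 2 [] =
      R A C [] (one tm.k₁ (List.map h.outputAlphabet.invFun (f a))) := by
    have := Function.update_eq_self 2
      (R A C [] (one tm.k₁ (List.map h.outputAlphabet.invFun (f a))))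
    rwa [R_two] at this
  rw [e5, List.append_nil, List.map_map] at r5
  have e6 : (⇑h.outputAlphabet ∘ h.outputAlphabet.invFun) = id := by
    funext x; exact h.outputAlphabet.apply_symm_apply x
  rw [e6, List.map_id, List.length_map] at r5
  have r6 : Runs (mv 2 0) (update (fun _ => []) 2 (f a).reverse) (inp (f a))
      (4 * (f a).length + 1) := by
    refine (mv_runs (by decide) (f a).reverse _ _ (by simp) ?_).mono (by simp)
    simp [inp]
  have hall := r1.seq (r2.seq (r3.seq (hmain.seq (r5.seq r6))))
  have hlen : (f a).length ≤ (b + 1) * a.length + n * c + (b + bs + 10) := by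
    obtain ⟨t, ht, hr⟩ := hmain
    have := hr.length_le (idx tm.k₁)
    rw [R_idx, R_idx] at this
    have e7 : ∀ l : List (tm.Γ tm.k₁), (encS A C tm.k₁ l).length = b * l.length := by
      intro l
      induction l with
      | nil => simp [encS]
      | cons x l ih =>
        have : encS A C tm.k₁ (x :: l) = C.code ⟨tm.k₁, x⟩ ++ encS A C tm.k₁ l := by
          simp [encS]
        rw [this, List.length_append, C.len, ih, List.length_cons]; ring
    rw [e7, e7] at this
    have e8 : (one tm.k₁ (List.map h.outputAlphabet.invFun (f a)) tm.k₁).length =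
        (f a).length := by
      rw [one, Function.update_self, List.length_map]
    have e9 : (one tm.k₀ (List.map h.inputAlphabet.invFun a) tm.k₁).length ≤
        a.length := by
      unfold one
      by_cases hk : tm.k₁ = tm.k₀
      · have : (update (fun _ => []) tm.k₀ (List.map h.inputAlphabet.invFun a) tm.k₀ :
          List (tm.Γ tm.k₀)).length ≤ a.length := by
          rw [Function.update_self, List.length_map]
        have key : ∀ k, k = tm.k₀ → (update (fun _ => []) tm.k₀
          (List.map h.inputAlphabet.invFun a) k : List (tm.Γ k)).length ≤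
            a.length := by
          intro k hk; subst hk; exact this
        exact key _ hk
      · rw [Function.update_of_ne hk]; simp
    have e10 : (one tm.k₁ (List.map h.outputAlphabet.invFun (f a)) tm.k₁).length ≤
        b * (one tm.k₁ (List.map h.outputAlphabet.invFun (f a)) tm.k₁).length :=
      Nat.le_mul_of_pos_left _ hb
    have e11 : b * (one tm.k₀ (List.map h.inputAlphabet.invFun a) tm.k₁).length ≤
        b * a.length := Nat.mul_le_mul_left _ e9
    have e12 : t ≤ n * c + 1 := ht
    rw [e8] at e10
    simp only at this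
    nlinarith [this, e10, e11, e12]
  have hn2 : n ≤ h.time a.length := hn'
  refine hall.mono ?_
  generalize h.time a.length = τ at hn2
  have h1 : n * c ≤ c * τ := by
    rw [mul_comm]; exact Nat.mul_le_mul_left _ hn2
  have h2 : (f a).length ≤ ((b + 1) + c + (b + bs + 10)) * (τ + a.length + 1) := by
    nlinarith [Nat.zero_le (τ * (b + 1)), Nat.zero_le (τ * (b + bs + 10)),
      Nat.zero_le (a.length * c), Nat.zero_le (a.length * (b + bs + 10))]
  have h3 : (2 * b + 2) * (f a).length + 4 * (f a).length ≤
      (4 * b + 20) * (((b + 1) + c + (b + bs + 10)) * (τ + a.length + 1)) := by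
    calc (2 * b + 2) * (f a).length + 4 * (f a).length
        = (2 * b + 6) * (f a).length := by ring
      _ ≤ (4 * b + 20) * (f a).length := Nat.mul_le_mul_right _ (by omega)
      _ ≤ _ := Nat.mul_le_mul_left _ h2
  have h4 : n * (2 * bs + B + 1) = n * c := rfl
  rw [List.length_reverse]
  have h5 : (b + 4) * a.length + 4 * a.length = (b + 8) * a.length := by ring
  rw [h4]
  have h6 : (b + 8) * a.length ≤ (b + 8) * (τ + a.length + 1) := Nat.mul_le_mul_left _ (by omega)
  have h7 : c * τ ≤ c * (τ + a.length + 1) := Nat.mul_le_mul_left _ (by omega)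
  have h8 : bs + 20 ≤ (bs + 20) * (τ + a.length + 1) := Nat.le_mul_of_pos_right _ (by omega)
  have h9 : ((b + 8) + c + (4 * b + 20) * ((b + 1) + c + (b + bs + 10)) + (bs + 20)) *
      (τ + a.length + 1) = (b + 8) * (τ + a.length + 1) + c * (τ + a.length + 1) +
      (4 * b + 20) * (((b + 1) + c + (b + bs + 10)) * (τ + a.length + 1)) +
      (bs + 20) * (τ + a.length + 1) := by ring
  rw [h9]
  omega

open Pool.Agent.H660R2.NX

/-- Codes of programs. -/
abbrev Code : Type := T × List Unit

/-- A function computed in time `O(n ^ k)`, `k ≥ 1`, has a code for the universal function with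
running time `O(n ^ k)`, and its output length is `O(n ^ k)`. -/
theorem InTime.code {k : ℕ} (hk : 1 ≤ k) {f : List Bool → List Bool} (hf : InTime k f) :
    ∃ (e : Code) (C : ℕ), (∀ x t, C * (x.length + 1) ^ k ≤ t → U e x t = some (f x)) ∧
      ∀ x, (f x).length ≤ C * (x.length + 1) ^ k := by
  obtain ⟨M, c, hc⟩ := hf
  obtain ⟨p, C, h⟩ := toRuns M
  have hb : ∀ x : List Bool, C * (M.time x.length + x.length + 1) ≤
      C * (2 * c + 1) * (x.length + 1) ^ k := by
    intro x
    rw [mul_assoc]
    refine Nat.mul_le_mul_left _ ?_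
    have h1 := hc x.length
    have h2 : x.length ^ k ≤ (x.length + 1) ^ k := Nat.pow_le_pow_left (by omega) _
    have h3 : x.length + 1 ≤ (x.length + 1) ^ k := Nat.le_self_pow (by omega) _
    have h4 : c * x.length ^ k ≤ c * (x.length + 1) ^ k := Nat.mul_le_mul_left _ h2
    have h5 : c ≤ c * (x.length + 1) ^ k := Nat.le_mul_of_pos_right _ (by omega)
    nlinarith
  refine ⟨(cenc p, List.replicate p.bd ()), 2 * (C * (2 * c + 1)) + 1, fun x t ht => ?_,
    fun x => ?_⟩
  · obtain ⟨t₀, ht₀, hr⟩ := h x
    have hrep : Rep (x :: (List.replicate p.bd ()).map (fun _ => ([] : List Bool)))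
        (inp x : ℕ → List Bool) := by
      intro i
      cases i with
      | zero => simp [inp]
      | succ i =>
        rw [List.getD_cons_succ]
        simp only [inp, List.map_replicate]
        rw [Function.update_of_ne (by omega)]
        rw [List.getD_eq_getElem?_getD, List.getElem?_replicate]
        split_ifs <;> rfl
    obtain ⟨n, s', hn, _, hs', he⟩ := sim hr [] _ (by simp) hrep
    have h1 : U (cenc p, List.replicate p.bd ()) x n = some (f x) := by
      unfold U
      simp only [he, if_true]
      have := hs' 0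
      rw [this]
      simp [inp]
    refine U_mono ?_ h1
    have h2 := hb x
    nlinarith [Nat.zero_le ((x.length + 1) ^ k)]
  · obtain ⟨t₀, ht₀, hr⟩ := h x
    have h1 := hr.length_le 0
    simp only [inp, Function.update_self] at h1
    have h2 := hb x
    have h3 : x.length + 1 ≤ (x.length + 1) ^ k := Nat.le_self_pow (by omega) _
    nlinarith [Nat.zero_le (C * (2 * c + 1) * (x.length + 1) ^ k)]

end Pool.Agent.H553Z.Hier
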